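import Pool.Agent.helper23.CS.Spec

/-!
# Row cs:KSUP: supermodularity of the number of constant configurations
-/

open Finset

namespace CS

theorem KSUP_assoc {V : Type} (σ τ ρ : V → Bool) : mc (mc σ τ) ρ = mc (mc σ ρ) τ := by
  funext x
  simp only [mc]
  cases σ x <;> cases τ x <;> cases ρ x <;> rfl

theorem KSUP_sub {V ι : Type} {G : MG V ι} {ω ω' : Finset ι} (h : ω ⊆ ω') {σ : V → Bool}
    (hσ : Cst G ω' σ) : Cst G ω σ := fun e he => hσ e (h he)

theorem KSUP_union {V ι : Type} [DecidableEq ι] (G : MG V ι) (ω ω' : Finset ι) (σ : V → Bool) :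
    Cst G (ω ∪ ω') σ ↔ (Cst G ω σ ∧ Cst G ω' σ) := by
  constructor
  · intro h
    exact ⟨KSUP_sub Finset.subset_union_left h, KSUP_sub Finset.subset_union_right h⟩
  · rintro ⟨h1, h2⟩ e he
    rcases Finset.mem_union.1 he with h | h
    · exact h1 e h
    · exact h2 e h

theorem KSUP_KN {V ι : Type} [Fintype V] [DecidableEq V] (G : MG V ι) (ω : Finset ι) :
    KN G ω = ∑ σ : V → Bool, ind (Cst G ω σ) := by
  unfold KN
  rw [KK_eq]
  exact Finset.sum_congr rfl fun σ _ => mul_one _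

theorem KSUP : KSUP_stmt := by
  intro V ι _ _ _ G ω ω'
  have key : ∀ ρ : V → Bool,
      ∑ σ : V → Bool, ind (Cst G ω σ) * ind (Cst G ω' (mc σ ρ)) ≤
        ind (Cst G (ω ∩ ω') ρ) * KN G (ω ∪ ω') := by
    intro ρ
    by_cases h : ∃ σ₀ : V → Bool, Cst G ω σ₀ ∧ Cst G ω' (mc σ₀ ρ)
    · obtain ⟨σ₀, h1, h2⟩ := h
      have h3 : Cst G (ω ∩ ω') ρ := by
        have h4 : Cst G (ω ∩ ω') σ₀ := KSUP_sub Finset.inter_subset_left h1
        have h5 : Cst G (ω ∩ ω') (mc σ₀ ρ) := KSUP_sub Finset.inter_subset_right h2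
        exact (Cst_mc h4).1 h5
      rw [ind_true h3, one_mul, KSUP_KN,
        ← sum_mc σ₀ (fun σ => ind (Cst G ω σ) * ind (Cst G ω' (mc σ ρ)))]
      refine le_of_eq (Finset.sum_congr rfl fun τ _ => ?_)
      rw [KSUP_assoc, ind_congr (Cst_mc h1), ind_congr (Cst_mc h2), ← ind_and]
      exact (ind_congr (KSUP_union G ω ω' τ)).symm
    · have h0 : ∑ σ : V → Bool, ind (Cst G ω σ) * ind (Cst G ω' (mc σ ρ)) = 0 := by
        refine Finset.sum_eq_zero fun σ _ => ?_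
        rw [← ind_and]
        exact ind_false fun hc => h ⟨σ, hc⟩
      rw [h0]
      exact mul_nonneg (ind_nonneg _) (KN_pos G _).le
  calc KN G ω * KN G ω'
      = ∑ σ : V → Bool, ∑ ρ : V → Bool, ind (Cst G ω σ) * ind (Cst G ω' (mc σ ρ)) := by
        rw [KSUP_KN, KSUP_KN, Finset.sum_mul]
        refine Finset.sum_congr rfl fun σ _ => ?_
        rw [← Finset.mul_sum, sum_mc σ (fun τ => ind (Cst G ω' τ))]
    _ = ∑ ρ : V → Bool, ∑ σ : V → Bool, ind (Cst G ω σ) * ind (Cst G ω' (mc σ ρ)) :=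
        Finset.sum_comm
    _ ≤ ∑ ρ : V → Bool, ind (Cst G (ω ∩ ω') ρ) * KN G (ω ∪ ω') :=
        Finset.sum_le_sum fun ρ _ => key ρ
    _ = KN G (ω ∩ ω') * KN G (ω ∪ ω') := by
        rw [← Finset.sum_mul, ← KSUP_KN]

end CS
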